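import Mathlib

/-!
# Two partitions of `m` into at least four parts

For two partitions `P`, `Q` of `m` into at least four parts there is an integer `k` such that the sums of the
residues modulo `m` of the multiples `k x`, `x ∈ P`, and `-k x`, `x ∈ Q`, are both at least `2 m`.
-/

set_option autoImplicit false

namespace Pool.Agent.Q63.QC

/-- the sum of the residues of `j x` -/
def up (m : ℕ) (P : Multiset ℕ) (j : ℕ) : ℕ := (P.map fun x => (j * x) % m).sum

/-- the sum of the residues of `-j x` -/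
def dn (m : ℕ) (P : Multiset ℕ) (j : ℕ) : ℕ := (P.map fun x => (m - (j * x) % m) % m).sum

variable {m : ℕ}

lemma up_cons (x : ℕ) (P : Multiset ℕ) (j : ℕ) : up m (x ::ₘ P) j = (j * x) % m + up m P j := by
  simp [up]

lemma dn_cons (x : ℕ) (P : Multiset ℕ) (j : ℕ) :
    dn m (x ::ₘ P) j = (m - (j * x) % m) % m + dn m P j := by
  simp [dn]

lemma up_mod (P : Multiset ℕ) (j : ℕ) : (up m P j) % m = (j * P.sum) % m := by
  induction P using Multiset.induction_on with
  | empty => simp [up]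
  | cons x P ih =>
    rw [up_cons, Multiset.sum_cons, Nat.add_mod, ih, mul_add, Nat.add_mod (j * x) (j * P.sum),
      Nat.mod_mod]

lemma up_add_dn (hm : 0 < m) (P : Multiset ℕ) (j : ℕ) : m ∣ up m P j + dn m P j := by
  induction P using Multiset.induction_on with
  | empty => simp [up, dn]
  | cons x P ih =>
    rw [up_cons, dn_cons]
    have h1 : m ∣ (j * x) % m + (m - (j * x) % m) % m := by
      have h2 := Nat.mod_lt (j * x) hm
      rcases Nat.eq_zero_or_pos ((j * x) % m) with h0 | h0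
      · rw [h0]; simp
      · rw [Nat.mod_eq_of_lt (a := m - (j * x) % m) (by omega)]
        rw [Nat.add_sub_cancel' h2.le]
    have : (j * x) % m + up m P j + ((m - (j * x) % m) % m + dn m P j) =
        ((j * x) % m + (m - (j * x) % m) % m) + (up m P j + dn m P j) := by ring
    rw [this]
    exact Nat.dvd_add h1 ih

lemma up_dvd {P : Multiset ℕ} (hP : P.sum = m) (j : ℕ) : m ∣ up m P j := by
  apply Nat.dvd_of_mod_eq_zero
  rw [up_mod, hP, Nat.mul_mod_left]

lemma dn_dvd (hm : 0 < m) {P : Multiset ℕ} (hP : P.sum = m) (j : ℕ) : m ∣ dn m P j :=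
  (Nat.dvd_add_right (up_dvd hP j)).1 (up_add_dn hm P j)

lemma two_le {n : ℕ} (hm : 0 < m) (h : m ∣ n) (hlt : m < n) : 2 * m ≤ n := by
  obtain ⟨t, rfl⟩ := h
  have : 1 < t := by
    by_contra hcon
    have : m * t ≤ m * 1 := Nat.mul_le_mul_left m (by omega)
    omega
  nlinarith

lemma up_small {P : Multiset ℕ} {j : ℕ} (h : ∀ x ∈ P, j * x < m) : up m P j = j * P.sum := by
  induction P using Multiset.induction_on with
  | empty => simp [up]
  | cons x P ih =>
    rw [up_cons, ih fun x hx => h x (Multiset.mem_cons_of_mem hx),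
      Nat.mod_eq_of_lt (h x (Multiset.mem_cons_self x P)), Multiset.sum_cons, mul_add]

lemma dn_small {P : Multiset ℕ} {j : ℕ} (hj : 1 ≤ j) (hpos : ∀ x ∈ P, 1 ≤ x) (h : ∀ x ∈ P, j * x < m) :
    dn m P j + j * P.sum = P.card * m := by
  induction P using Multiset.induction_on with
  | empty => simp [dn]
  | cons x P ih =>
    have h1 := ih (fun x hx => hpos x (Multiset.mem_cons_of_mem hx))
      (fun x hx => h x (Multiset.mem_cons_of_mem hx))
    have h2 := h x (Multiset.mem_cons_self x P)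
    have h3 := hpos x (Multiset.mem_cons_self x P)
    have h4 : 0 < j * x := by positivity
    rw [dn_cons, Nat.mod_eq_of_lt h2, Nat.mod_eq_of_lt (a := m - j * x) (by omega), Multiset.sum_cons,
      Multiset.card_cons, add_mul, one_mul, mul_add, ← h1]
    omega

lemma le_sum {P : Multiset ℕ} {x : ℕ} (hx : x ∈ P) : x ≤ P.sum := by
  obtain ⟨P', rfl⟩ := Multiset.exists_cons_of_mem hx
  rw [Multiset.sum_cons]
  omega

lemma sum_pos {P : Multiset ℕ} (hpos : ∀ x ∈ P, 1 ≤ x) : P.card ≤ P.sum := by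
  induction P using Multiset.induction_on with
  | empty => simp
  | cons x P ih =>
    have h1 := ih (fun x hx => hpos x (Multiset.mem_cons_of_mem hx))
    have h3 := hpos x (Multiset.mem_cons_self x P)
    rw [Multiset.sum_cons, Multiset.card_cons]
    omega

/-- a sorted partition of `m` into at least four parts -/
structure Part (m : ℕ) (u v : ℕ) (R : Multiset ℕ) : Prop where
  sum : u + (v + R.sum) = m
  uv : v ≤ u
  vR : ∀ x ∈ R, x ≤ v
  pos : ∀ x ∈ R, 1 ≤ x
  card : 2 ≤ R.card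

variable {u v u' v' : ℕ} {R R' : Multiset ℕ}

lemma Part.two (h : Part m u v R) : 2 ≤ R.sum := h.card.trans (sum_pos h.pos)

lemma Part.vpos (h : Part m u v R) : 1 ≤ v := by
  have : R ≠ 0 := by
    rintro rfl
    have := h.card
    simp at this
  obtain ⟨x, hx⟩ := Multiset.exists_mem_of_ne_zero this
  exact (h.pos x hx).trans (h.vR x hx)

lemma Part.mpos (h : Part m u v R) : 0 < m := by
  have := h.vpos
  have := h.sum
  omega

lemma Part.tot (h : Part m u v R) : (u ::ₘ v ::ₘ R).sum = m := by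
  rw [Multiset.sum_cons, Multiset.sum_cons]
  exact h.sum

/-- part of `dn` -/
lemma Part.dn_of_rest (h : Part m u v R) {j : ℕ} (hj : 1 ≤ j) (hlt : j * R.sum < m) :
    2 * m ≤ dn m (u ::ₘ v ::ₘ R) j := by
  refine two_le h.mpos (dn_dvd h.mpos h.tot j) ?_
  have h1 := dn_small (m := m) hj h.pos fun x hx => lt_of_le_of_lt (Nat.mul_le_mul_left j (le_sum hx)) hlt
  have h2 : 2 * m ≤ R.card * m := Nat.mul_le_mul_right m h.card
  rw [dn_cons, dn_cons]
  omega

lemma Part.dn_of_tail (h : Part m u v R) {j : ℕ} (hj : 1 ≤ j) (hlt : j * v < m)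
    (hle : 2 * (j * (v + R.sum)) ≤ 3 * m) : 2 * m ≤ dn m (u ::ₘ v ::ₘ R) j := by
  refine two_le h.mpos (dn_dvd h.mpos h.tot j) ?_
  have h1 := dn_small (m := m) (P := v ::ₘ R) hj
    (fun x hx => by
      rcases Multiset.mem_cons.1 hx with rfl | hx
      · exact h.vpos
      · exact h.pos x hx)
    (fun x hx => by
      rcases Multiset.mem_cons.1 hx with rfl | hx
      · exact hlt
      · exact lt_of_le_of_lt (Nat.mul_le_mul_left j (h.vR x hx)) hlt)
  rw [Multiset.sum_cons, Multiset.card_cons, add_mul, one_mul] at h1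
  have h2 : 2 * m ≤ R.card * m := Nat.mul_le_mul_right m h.card
  have h3 := h.mpos
  rw [dn_cons]
  omega

/-- `j = 2` -/
lemma Part.up_two (h : Part m u v R) (hu : 2 * u < m) : 2 * m ≤ up m (u ::ₘ v ::ₘ R) 2 := by
  have h1 := up_small (m := m) (P := u ::ₘ v ::ₘ R) (j := 2) (fun x hx => by
    rcases Multiset.mem_cons.1 hx with rfl | hx
    · exact hu
    · rcases Multiset.mem_cons.1 hx with rfl | hx
      · have := h.uv; omega
      · have := h.vR x hx; have := h.uv; omega)
  rw [h1, h.tot]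

lemma Part.dn_two (h : Part m u v R) : 2 * m ≤ dn m (u ::ₘ v ::ₘ R) 2 := by
  have h1 := h.two
  have h2 := h.sum
  have h3 := h.uv
  rcases lt_or_ge (2 * u) m with hu | hu
  · have h4 := dn_small (m := m) (P := u ::ₘ v ::ₘ R) (j := 2) (by norm_num)
      (fun x hx => by
        rcases Multiset.mem_cons.1 hx with rfl | hx
        · have := h.vpos; omega
        · rcases Multiset.mem_cons.1 hx with rfl | hx
          · exact h.vpos
          · exact h.pos x hx)
      (fun x hx => by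
        rcases Multiset.mem_cons.1 hx with rfl | hx
        · exact hu
        · rcases Multiset.mem_cons.1 hx with rfl | hx
          · omega
          · have := h.vR x hx; omega)
    rw [h.tot, Multiset.card_cons, Multiset.card_cons] at h4
    have h5 : 4 * m ≤ (R.card + 1 + 1) * m := Nat.mul_le_mul_right m (by have := h.card; omega)
    omega
  · exact h.dn_of_tail (by norm_num) (by omega) (by omega)

/-- Lemma J -/
lemma Part.lemmaJ (h : Part m u v R) (hlt : R.sum < v) :
    ∃ j, 1 ≤ j ∧ j * R.sum < m ∧ 2 * m ≤ up m (u ::ₘ v ::ₘ R) j := by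
  have hm := h.mpos
  have h1 := h.two
  have h2 := h.sum
  have h3 := h.uv
  set y := R.sum with hy
  have key : ∀ j, 1 ≤ j → j * y < m → m < (j * v) % m + j * y →
      ∃ j, 1 ≤ j ∧ j * y < m ∧ 2 * m ≤ up m (u ::ₘ v ::ₘ R) j := by
    intro j hj hjy hlt'
    refine ⟨j, hj, hjy, two_le hm (up_dvd h.tot j) ?_⟩
    rw [up_cons, up_cons, up_small fun x hx => lt_of_le_of_lt (Nat.mul_le_mul_left j (le_sum hx)) hjy,
      ← hy]
    omega
  obtain ⟨J, hJ⟩ : ∃ J, J = (m - 1) / y := ⟨_, rfl⟩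
  have hy0 : 0 < y := by omega
  have hJ1 : J * y ≤ m - 1 := by
    rw [hJ]
    exact Nat.div_mul_le_self _ _
  have hJ2 : m - 1 < (J + 1) * y := by
    rw [hJ, ← Nat.div_lt_iff_lt_mul hy0]
    omega
  have hJ3 : m ≤ J * y + y := by
    have : (J + 1) * y = J * y + y := by ring
    omega
  have hJ0 : 1 ≤ J := by
    rw [hJ, Nat.one_le_div_iff hy0]
    omega
  by_cases ha : m < (J * v) % m + J * y
  · exact key J hJ0 (by omega) ha
  · push Not at ha
    have hav : (J * v) % m < v := by omega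
    have hJ4 : J ≠ 1 := by
      intro h1
      rw [h1, one_mul, Nat.mod_eq_of_lt (by omega)] at hav
      omega
    obtain ⟨j, rfl⟩ : ∃ j, J = j + 1 := ⟨J - 1, by omega⟩
    have hmod : (j * v) % m = (j + 1) * v % m + m - v := by
      have h5 : (j + 1) * v % m = (j * v % m + v % m) % m := by rw [add_mul, one_mul, Nat.add_mod]
      rw [Nat.mod_eq_of_lt (a := v) (by omega)] at h5
      have h6 := Nat.mod_lt (j * v) hm
      rcases lt_or_ge (j * v % m + v) m with h7 | h7
      · rw [Nat.mod_eq_of_lt h7] at h5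
        omega
      · rw [Nat.mod_eq_sub_mod h7, Nat.mod_eq_of_lt (a := j * v % m + v - m) (by omega)] at h5
        omega
    have h8 : (j + 1) * y = j * y + y := by ring
    exact key j (by omega) (by omega) (by omega)

/-- type B -/
lemma Part.typeB (h : Part m u v R) (hle : v ≤ R.sum) (hu : m ≤ 2 * u) :
    ∃ k, 1 ≤ k ∧ 2 * m ≤ up m (u ::ₘ v ::ₘ R) k ∧ m < k * (v + R.sum) ∧
      k * (v + R.sum) ≤ m + (v + R.sum) := by
  have hm := h.mpos
  have h1 := h.two
  have h2 := h.sum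
  set w := v + R.sum with hw
  have hw0 : 0 < w := by omega
  set k := m / w + 1 with hk
  have h3 : m / w * w ≤ m := Nat.div_mul_le_self _ _
  have h4 : m < k * w := by
    rw [hk, ← Nat.div_lt_iff_lt_mul hw0]
    omega
  have h5 : k * w ≤ m + w := by
    rw [hk, add_mul, one_mul]
    omega
  have h10 : 1 ≤ k := by
    rw [hk]
    exact Nat.le_add_left 1 _
  refine ⟨k, h10, two_le hm (up_dvd h.tot k) ?_, h4, h5⟩
  have h6 : up m (v ::ₘ R) k = k * w := by
    rw [up_small, Multiset.sum_cons]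
    intro x hx
    have hxv : 2 * x ≤ w := by
      rcases Multiset.mem_cons.1 hx with rfl | hx
      · omega
      · have := h.vR x hx
        omega
    have : k * (2 * x) ≤ k * w := Nat.mul_le_mul_left k hxv
    have h7 : k * (2 * x) = 2 * (k * x) := by ring
    omega
  rw [up_cons, h6]
  omega

/-- one half of the theorem -/
lemma core (h : Part m u v R) (h' : Part m u' v' R') (hy : R'.sum ≤ R.sum) (hu : m ≤ 2 * u)
    (hu' : m ≤ 2 * u') :
    ∃ j, (2 * m ≤ up m (u ::ₘ v ::ₘ R) j ∧ 2 * m ≤ dn m (u' ::ₘ v' ::ₘ R') j) ∨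
      (2 * m ≤ dn m (u ::ₘ v ::ₘ R) j ∧ 2 * m ≤ up m (u' ::ₘ v' ::ₘ R') j) := by
  have hsum := h.sum
  have hsum' := h'.sum
  have hm := h.mpos
  rcases lt_or_ge R.sum v with hA | hB
  · obtain ⟨j, hj, hjy, hup⟩ := h.lemmaJ hA
    exact ⟨j, Or.inl ⟨hup, h'.dn_of_rest hj (lt_of_le_of_lt (Nat.mul_le_mul_left j hy) hjy)⟩⟩
  · obtain ⟨k, hk, hup, hk1, hk2⟩ := h.typeB hB hu
    -- the estimate for partitions of type B
    have est : ∀ {a b : ℕ} {S : Multiset ℕ}, Part m a b S → m ≤ 2 * a → b ≤ S.sum → ∀ j, 1 ≤ j →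
        j * (b + S.sum) ≤ m + (b + S.sum) → 2 * m ≤ dn m (a ::ₘ b ::ₘ S) j := by
      intro a b S hS ha hb j hj hle
      have h1 := hS.sum
      refine hS.dn_of_tail hj ?_ ?_
      · have h2 : j * (2 * b) ≤ j * (b + S.sum) := Nat.mul_le_mul_left j (by omega)
        have h3 : j * (2 * b) = 2 * (j * b) := by ring
        omega
      · omega
    rcases lt_or_ge R'.sum v' with hA' | hB'
    · rcases lt_or_ge (k * R'.sum) m with hlt | hge
      · exact ⟨k, Or.inl ⟨hup, h'.dn_of_rest hk hlt⟩⟩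
      · obtain ⟨j, hj, hjy, hup'⟩ := h'.lemmaJ hA'
        have hjk : j ≤ k := by
          by_contra hcon
          have : k * R'.sum ≤ j * R'.sum := Nat.mul_le_mul_right _ (by omega)
          omega
        exact ⟨j, Or.inr ⟨est h hu hB j hj (le_trans (Nat.mul_le_mul_right _ hjk) hk2), hup'⟩⟩
    · obtain ⟨k', hk', hup', hk1', hk2'⟩ := h'.typeB hB' hu'
      rcases le_total k k' with hkk | hkk
      · exact ⟨k, Or.inl ⟨hup, est h' hu' hB' k hk (le_trans (Nat.mul_le_mul_right _ hkk) hk2')⟩⟩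
      · exact ⟨k', Or.inr ⟨est h hu hB k' hk' (le_trans (Nat.mul_le_mul_right _ hkk) hk2), hup'⟩⟩

theorem parts (h : Part m u v R) (h' : Part m u' v' R') :
    ∃ j, (2 * m ≤ up m (u ::ₘ v ::ₘ R) j ∧ 2 * m ≤ dn m (u' ::ₘ v' ::ₘ R') j) ∨
      (2 * m ≤ dn m (u ::ₘ v ::ₘ R) j ∧ 2 * m ≤ up m (u' ::ₘ v' ::ₘ R') j) := by
  rcases lt_or_ge (2 * u) m with hu | hu
  · exact ⟨2, Or.inl ⟨h.up_two hu, h'.dn_two⟩⟩
  rcases lt_or_ge (2 * u') m with hu' | hu'
  · exact ⟨2, Or.inr ⟨h.dn_two, h'.up_two hu'⟩⟩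
  rcases le_total R'.sum R.sum with hy | hy
  · exact core h h' hy hu hu'
  · obtain ⟨j, hj | hj⟩ := core h' h hy hu' hu
    · exact ⟨j, Or.inr hj.symm⟩
    · exact ⟨j, Or.inl hj.symm⟩

/-- every multiset with at least four positive elements is sorted in this way -/
lemma exists_part {P : Multiset ℕ} (hP : P.sum = m) (hpos : ∀ x ∈ P, 1 ≤ x) (hc : 4 ≤ P.card) :
    ∃ u v R, P = u ::ₘ v ::ₘ R ∧ Part m u v R := by
  obtain ⟨l, hl, hsort⟩ : ∃ l : List ℕ, (l : Multiset ℕ) = P ∧ l.Pairwise (· ≥ ·) :=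
    ⟨P.sort (· ≥ ·), Multiset.sort_eq _ _, Multiset.pairwise_sort _ _⟩
  match l, hl, hsort with
  | [], hl, _ => rw [← hl] at hc; simp at hc
  | [a], hl, _ => rw [← hl] at hc; simp at hc
  | a :: b :: t, hl, hsort =>
    refine ⟨a, b, (t : Multiset ℕ), by rw [← hl]; rfl, ?_⟩
    rw [List.pairwise_cons, List.pairwise_cons] at hsort
    have hP' : P = a ::ₘ b ::ₘ (t : Multiset ℕ) := by rw [← hl]; rfl
    refine ⟨?_, hsort.1 b (by simp), fun x hx => hsort.2.1 x (by simpa using hx), fun x hx => hpos x ?_, ?_⟩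
    · rw [← hP, hP', Multiset.sum_cons, Multiset.sum_cons]
    · rw [hP']
      simp only [Multiset.mem_cons]
      exact Or.inr (Or.inr hx)
    · rw [hP', Multiset.card_cons, Multiset.card_cons] at hc
      omega

/-- The combinatorial theorem. -/
theorem comb {P Q : Multiset ℕ} (hP : P.sum = m) (hQ : Q.sum = m) (hP0 : ∀ x ∈ P, 1 ≤ x)
    (hQ0 : ∀ x ∈ Q, 1 ≤ x) (hPc : 4 ≤ P.card) (hQc : 4 ≤ Q.card) :
    ∃ j, (2 * m ≤ up m P j ∧ 2 * m ≤ dn m Q j) ∨ (2 * m ≤ dn m P j ∧ 2 * m ≤ up m Q j) := by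
  obtain ⟨u, v, R, rfl, h⟩ := exists_part hP hP0 hPc
  obtain ⟨u', v', R', rfl, h'⟩ := exists_part hQ hQ0 hQc
  exact parts h h'

end Pool.Agent.Q63.QC
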