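import Mathlib
import Pool.Agent.Q63.PC.Defs

/-!
# Abelian coverings of `P^1 × P^1`: definitions
-/

set_option autoImplicit false

namespace Pool.Agent.Q63.QC

open Pool.Agent.Q63.PC

open Classical in
/-- The geometric genus of the abelian covering of `P^1 × P^1`, branched over a normal crossing divisor with
components of bidegrees `(d i, e i)`, with the group of characters `Λ`: the line bundle `L_a` has the bidegree
`(num d a / m, num e a / m)`, and `H^0(K + L_a)` has the dimension
`(num d a / m - 1) * (num e a / m - 1)` (truncated subtraction). -/
noncomputable def geomGenus {m s : ℕ} [NeZero m] (d e : Fin s → ℕ)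
    (Λ : AddSubgroup (Fin s → ZMod m)) : ℕ :=
  ∑ a with a ∈ Λ, (num d a / m - 1) * (num e a / m - 1)

/-- `X` is (a desingularisation of) the abelian covering of `P^1 × P^1` over `ℂ`, branched over smooth curves
`D_i` of bidegrees `(d i, e i)`, `i < s`, whose union has normal crossings. Its group `G` is a quotient of
`(ℤ/m)^s` (the `i`-th generator goes to the canonical generator of the inertia group of `D_i`), and `Λ` is the
group of the characters of `G`, as a subgroup of `(ℤ/m)^s`. `V` is the tensor product with `ℂ` of the kernel of
the Albanese map on the zero-cycles of degree zero of `X`. -/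
structure QuadricCover {m s : ℕ} [NeZero m] (d e : Fin s → ℕ) (Λ : AddSubgroup (Fin s → ZMod m))
    (ψ : AddChar (ZMod m) ℂ) {V : Type} [AddCommGroup V] [Module ℂ V]
    (ρ : Representation ℂ (Multiplicative (Fin s → ZMod m)) V) : Prop where
  /-- only characters of `G` occur -/
  characters : ∀ (a : Fin s → ZMod m) (v : V), v ≠ 0 → Eigen ψ ρ a v → a ∈ Λ
  /-- the bidegrees of the line bundles `L_a` are integers -/
  integral : ∀ a ∈ Λ, ∑ i, a i * (d i : ZMod m) = 0 ∧ ∑ i, a i * (e i : ZMod m) = 0
  /-- If one of the two projections of `X / ker a` has as fibres cyclic coverings of `P^1` branched over at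
  most three points then `X / ker a` is dominated by a product of curves, and Bloch's conjecture is true
  for it (Kimura). Its group of characters is generated by `a`. -/
  fibred : ∀ a ∈ Λ, branch d a ≤ 3 ∨ branch e a ≤ 3 → geomGenus d e (AddSubgroup.zmultiples a) = 0 →
    ∀ v, KerFixed ρ a v → v = 0

end Pool.Agent.Q63.QC
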