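import Mathlib
import Pool.Agent.Q63.QC.Comb
import Pool.Agent.Q63.QC.Defs
import Pool.Agent.Q63.PC.Num
import Pool.Agent.Q63.PC.Main

set_option autoImplicit false

namespace Pool.Agent.Q63.QC

open Multiplicative Pool.Agent.Q63.PC Pool.Agent.Q63.KU

variable {m s : ℕ} [NeZero m] {d e : Fin s → ℕ}

/-- the multiset of the exponents, with multiplicities `d i` -/
def ms (d : Fin s → ℕ) (a : Fin s → ZMod m) : Multiset ℕ :=
  ∑ i with a i ≠ 0, Multiset.replicate (d i) (a i).val

omit [NeZero m] in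
lemma sum_map_ms (a : Fin s → ZMod m) (f : ℕ → ℕ) :
    ((ms d a).map f).sum = ∑ i with a i ≠ 0, d i * f (a i).val := by
  unfold ms
  have h1 : ∀ M : Multiset ℕ, (M.map f).sum =
      (Multiset.sumAddMonoidHom.comp (Multiset.mapAddMonoidHom f)) M := fun _ => rfl
  rw [h1, map_sum]
  refine Finset.sum_congr rfl fun i _ => ?_
  rw [← h1, Multiset.map_replicate, Multiset.sum_replicate, smul_eq_mul]

omit [NeZero m] in
lemma card_ms (a : Fin s → ZMod m) : (ms d a).card = branch d a := by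
  have := sum_map_ms (d := d) a (fun _ => 1)
  rw [Multiset.map_const', Multiset.sum_replicate, smul_eq_mul, mul_one] at this
  rw [this]
  unfold branch
  exact Finset.sum_congr rfl fun i _ => mul_one _

omit [NeZero m] in
lemma pos_ms (a : Fin s → ZMod m) : ∀ x ∈ ms d a, 1 ≤ x := by
  intro x hx
  unfold ms at hx
  rw [Multiset.mem_sum] at hx
  obtain ⟨i, hi, hx⟩ := hx
  rw [Multiset.mem_replicate] at hx
  rw [hx.2]
  simp only [Finset.mem_filter, Finset.mem_univ, true_and] at hi
  exact Nat.pos_of_ne_zero fun h => hi ((ZMod.val_eq_zero _).1 h)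

omit [NeZero m] in
lemma sum_ms (a : Fin s → ZMod m) : (ms d a).sum = num d a := by
  have := sum_map_ms (d := d) a id
  rw [Multiset.map_id] at this
  rw [this, num, Finset.sum_filter]
  refine Finset.sum_congr rfl fun i _ => ?_
  by_cases h : a i = 0
  · simp [h]
  · rw [if_pos h]
    rfl

omit [NeZero m] in
lemma up_ms (a : Fin s → ZMod m) (j : ℕ) : up m (ms d a) j = num d (fun i => (j : ZMod m) * a i) := by
  unfold up
  rw [sum_map_ms, num, Finset.sum_filter]
  refine Finset.sum_congr rfl fun i _ => ?_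
  by_cases h : a i = 0
  · simp [h]
  · rw [if_pos h, ZMod.val_mul, ZMod.val_natCast, Nat.mod_mul_mod]

lemma dn_ms (a : Fin s → ZMod m) (j : ℕ) : dn m (ms d a) j = num d (fun i => -((j : ZMod m) * a i)) := by
  unfold dn
  rw [sum_map_ms, num, Finset.sum_filter]
  refine Finset.sum_congr rfl fun i _ => ?_
  have hm : 0 < m := Nat.pos_of_ne_zero (NeZero.ne m)
  by_cases h : a i = 0
  · simp [h]
  · rw [if_pos h, ZMod.neg_val]
    congr 1
    have h1 : ((j : ZMod m) * a i).val = (j * (a i).val) % m := by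
      rw [ZMod.val_mul, ZMod.val_natCast, Nat.mod_mul_mod]
    rw [h1]
    by_cases h2 : (j : ZMod m) * a i = 0
    · rw [if_pos h2]
      rw [h2, ZMod.val_zero] at h1
      rw [← h1, Nat.sub_zero, Nat.mod_self]
    · rw [if_neg h2]
      have h3 : 0 < (j * (a i).val) % m := by
        rw [← h1]
        exact Nat.pos_of_ne_zero fun h => h2 ((ZMod.val_eq_zero _).1 h)
      exact Nat.mod_eq_of_lt (by omega)

/-- the numerical theorem -/
lemma small_aux {Λ : AddSubgroup (Fin s → ZMod m)}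
    (hint : ∀ a ∈ Λ, ∑ i, a i * (d i : ZMod m) = 0 ∧ ∑ i, a i * (e i : ZMod m) = 0)
    (hg : ∀ a ∈ Λ, ¬(2 * m ≤ num d a ∧ 2 * m ≤ num e a)) {a : Fin s → ZMod m} (ha : a ∈ Λ)
    (hd : 4 ≤ branch d a) (he : 4 ≤ branch e a) (hlt : num d a < 2 * m) : False := by
  have hm : 0 < m := Nat.pos_of_ne_zero (NeZero.ne m)
  have eq_m : ∀ {f : Fin s → ℕ} {b : Fin s → ZMod m}, ∑ i, b i * (f i : ZMod m) = 0 →
      4 ≤ branch f b → num f b < 2 * m → num f b = m := by
    intro f b hb hf hlt'
    obtain ⟨t, ht⟩ := dvd_num hb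
    have h1 := sum_pos (pos_ms (d := f) b)
    rw [card_ms, sum_ms] at h1
    have h2 : t < 2 := by
      by_contra hcon
      have : m * 2 ≤ m * t := Nat.mul_le_mul_left m (by omega)
      omega
    have h3 : t ≠ 0 := by
      rintro rfl
      omega
    have h4 : t = 1 := by omega
    rw [ht, h4, mul_one]
  have hneg : ∀ {f : Fin s → ℕ}, branch f (-a) = branch f a := by
    intro f
    unfold branch
    congr 1
    ext i
    simp
  have h1 := eq_m (hint a ha).1 hd hlt
  have h2 : 3 * m ≤ num d (-a) := by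
    have h3 := num_add_neg (d := d) a
    have h4 : 4 * m ≤ branch d a * m := Nat.mul_le_mul_right m hd
    omega
  have h3 : num e (-a) < 2 * m := by
    by_contra hcon
    exact hg (-a) (Λ.neg_mem ha) ⟨by omega, by omega⟩
  have h4 := eq_m (hint (-a) (Λ.neg_mem ha)).2 (by rw [hneg]; exact he) h3
  have hmul : ∀ (j : ℕ) (b : Fin s → ZMod m), (fun i => (j : ZMod m) * b i) = j • b := by
    intro j b
    funext i
    rw [Pi.smul_apply, nsmul_eq_mul]
  obtain ⟨j, hj | hj⟩ := comb (m := m) (P := ms d a) (Q := ms e (-a)) (by rw [sum_ms, h1])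
    (by rw [sum_ms, h4]) (pos_ms _) (pos_ms _) (by rw [card_ms]; exact hd)
    (by rw [card_ms, hneg]; exact he)
  · rw [up_ms, dn_ms] at hj
    refine hg (j • a) (Λ.nsmul_mem ha j) ⟨?_, ?_⟩
    · rw [← hmul]
      exact hj.1
    · have : (j • a) = fun i => -((j : ZMod m) * (-a) i) := by
        funext i
        rw [Pi.smul_apply, nsmul_eq_mul, Pi.neg_apply]
        ring
      rw [this]
      exact hj.2
  · rw [up_ms, dn_ms] at hj
    refine hg (-(j • a)) (Λ.neg_mem (Λ.nsmul_mem ha j)) ⟨?_, ?_⟩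
    · have : (-(j • a)) = fun i => -((j : ZMod m) * a i) := by
        funext i
        rw [Pi.neg_apply, Pi.smul_apply, nsmul_eq_mul]
      rw [this]
      exact hj.1
    · have : (-(j • a)) = fun i => (j : ZMod m) * (-a) i := by
        funext i
        rw [Pi.neg_apply, Pi.smul_apply, nsmul_eq_mul, Pi.neg_apply]
        ring
      rw [this]
      exact hj.2

theorem small {Λ : AddSubgroup (Fin s → ZMod m)}
    (hint : ∀ a ∈ Λ, ∑ i, a i * (d i : ZMod m) = 0 ∧ ∑ i, a i * (e i : ZMod m) = 0)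
    (hg : ∀ a ∈ Λ, ¬(2 * m ≤ num d a ∧ 2 * m ≤ num e a)) {a : Fin s → ZMod m} (ha : a ∈ Λ) :
    branch d a ≤ 3 ∨ branch e a ≤ 3 := by
  by_contra hcon
  push Not at hcon
  have hneg : ∀ {f : Fin s → ℕ}, branch f (-a) = branch f a := by
    intro f
    unfold branch
    congr 1
    ext i
    simp
  by_cases h : num d a < 2 * m
  · exact small_aux hint hg ha (by omega) (by omega) h
  · have h1 : num e a < 2 * m := by
      by_contra hc
      exact hg a ha ⟨by omega, by omega⟩
    exact small_aux (d := e) (e := d) (fun a ha => (hint a ha).symm) (fun a ha h => hg a ha h.symm) ha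
      (by omega) (by omega) h1

lemma genus_zero {Λ : AddSubgroup (Fin s → ZMod m)} (h : geomGenus d e Λ = 0) :
    ∀ a ∈ Λ, ¬(2 * m ≤ num d a ∧ 2 * m ≤ num e a) := by
  classical
  rintro a ha ⟨h1, h2⟩
  unfold geomGenus at h
  have h3 := (Finset.sum_eq_zero_iff.1 h) a (by simpa using ha)
  have hm : 0 < m := Nat.pos_of_ne_zero (NeZero.ne m)
  have h4 : 2 ≤ num d a / m := (Nat.le_div_iff_mul_le hm).2 h1
  have h5 : 2 ≤ num e a / m := (Nat.le_div_iff_mul_le hm).2 h2
  rcases Nat.mul_eq_zero.1 h3 with h6 | h6 <;> omega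

lemma genus_mono {Λ Λ' : AddSubgroup (Fin s → ZMod m)} (hle : Λ' ≤ Λ) (h : geomGenus d e Λ = 0) :
    geomGenus d e Λ' = 0 := by
  classical
  unfold geomGenus at h ⊢
  refine Finset.sum_eq_zero fun a ha => ?_
  refine (Finset.sum_eq_zero_iff.1 h) a ?_
  simp only [Finset.mem_filter, Finset.mem_univ, true_and] at ha ⊢
  exact hle ha

theorem bloch {Λ : AddSubgroup (Fin s → ZMod m)} {ψ : AddChar (ZMod m) ℂ} (hψ : ψ.IsPrimitive)
    {V : Type} [AddCommGroup V] [Module ℂ V]
    {ρ : Representation ℂ (Multiplicative (Fin s → ZMod m)) V} (hX : QuadricCover d e Λ ψ ρ)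
    (h : geomGenus d e Λ = 0) (v : V) : v = 0 := by
  rw [← sum_comp (ρ := ρ) hψ v]
  refine Finset.sum_eq_zero fun a _ => ?_
  by_contra h0
  have he : Eigen ψ ρ a (comp ρ ψ v a) := eigen_comp v a
  have ha := hX.characters a _ h0 he
  refine h0 (hX.fibred a ha (small hX.integral (genus_zero h) ha) ?_ _ he.kerFixed)
  exact genus_mono (by rw [AddSubgroup.zmultiples_le]; exact ha) h

end Pool.Agent.Q63.QC
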